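import Pool.Agent.H320Z.RainbowProof

set_option autoImplicit false

/-! A graph `H` and a number of colours `l` refuting both Q2 and Q1 of MP_5f020a_co. -/

namespace Pool.Agent.Results.MP_5f020a_co.Counterexample

open Pool.Agent.H320Z.Rainbow

theorem result : ∃ (V : Type) (_ : Finite V) (H : SimpleGraph V) (l : ℕ),
    (∀ v, ∃ w, H.Adj v w) ∧ 3 ≤ H.edgeSet.ncard ∧
    (∃ u v w, H.Adj u v ∧ H.Adj u w ∧ v ≠ w) ∧ H.edgeSet.ncard ≤ l ∧
    (∀ j : ℕ, 1 ≤ j → j ≤ H.edgeSet.ncard - 1 →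
      (l : ℝ) ^ piDel H j * (j : ℝ) ^ (1 - piDel H j) ≤ (H.edgeSet.ncard : ℝ) - 1) ∧
    Real.log ((H.edgeSet.ncard : ℝ) - 1) < lam H l ∧
    (∀ j : ℕ, 1 ≤ j → j ≤ H.edgeSet.ncard - 1 →
      piDel H j * Real.log l + (1 - piDel H j) * Real.log j < lam H l) :=
  main

end Pool.Agent.Results.MP_5f020a_co.Counterexample
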